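import Pool.Agent.V11198.SixteenW

/-!
# MP_95e9b3_co: short cycle covers from a long circuit with small components off it

Let `C` be a circuit of a bridgeless graph `G` such that the graph off `C` has small components (at
most sixteen vertices of odd degree each).  Then `G` has a cycle cover of total length
`2 |E(G)| - |C|`: by `Pool.Agent.V11198.Six.five_general`, `C` is one of five even subgraphs which
cover every edge exactly twice, and the other four still cover every edge.  This is at most
`7/5 |E(G)|` if `|C| ≥ 3/5 |E(G)|`; for a cubic graph this says that `C` passes through at least nine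
tenths of the vertices.
-/

set_option autoImplicit false

open Finset

namespace Pool.Agent.Results.MP_95e9b3_co.LongCircuit

open Pool.Agent.Helper347.Sab

variable {V E : Type} [Fintype V] [DecidableEq V] [Fintype E] [DecidableEq E]

/-- The vertex `v` is not a vertex of the circuit `C`. -/
def Off (G : MGraph V E) (C : Finset E) (v : V) : Prop := dg G C v = 0

/-- There is a path from `a` to `b` in the graph `G - V(C)` (all of its vertices are off `C`). -/
def PathOff (G : MGraph V E) (C : Finset E) (a b : V) : Prop :=
  Relation.ReflTransGen (fun x y => Off G C x ∧ Off G C y ∧ ∃ e, G.ends e = s(x, y)) a b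

/-- There is a path from `a` to `b` in the graph `G - E(C)` (it may pass through vertices
of `C`). -/
def PathAvoiding (G : MGraph V E) (C : Finset E) (a b : V) : Prop :=
  Relation.ReflTransGen (fun x y => ∃ e, e ∉ C ∧ G.ends e = s(x, y)) a b

/-- The edges that leave the vertex set `X`. -/
def leaving (G : MGraph V E) (X : Finset V) : Set E := {e | ∃ a ∈ X, ∃ b ∉ X, G.ends e = s(a, b)}

/-- `F` is a cycle cover: a multiset of circuits such that every edge is in a member. -/
def IsCycleCover (G : MGraph V E) (F : Multiset (Finset E)) : Prop :=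
  (∀ X ∈ F, IsCircuit G X) ∧ ∀ e, ∃ X ∈ F, e ∈ X

/-- the total length of the cover `F` -/
def length (F : Multiset (Finset E)) : ℕ := (F.map Finset.card).sum

theorem of_five (G : MGraph V E) (C : Finset E)
    (h : ∃ D : Fin 5 → Finset E, (∀ i, Ev G (D i)) ∧ D 0 = C ∧
      ∀ e, (univ.filter fun i => e ∈ D i).card = 2) :
    ∃ F, IsCycleCover G F ∧ length F + C.card = 2 * Fintype.card E := by
  obtain ⟨F, h1, h2, h3⟩ := Pool.Agent.V11198.Six.cover_of_five G C h
  refine ⟨F, ⟨h1, fun e => ?_⟩, h3⟩
  have h4 : 0 < F.countP (fun X => e ∈ X) := by rw [h2 e]; split_ifs <;> norm_num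
  obtain ⟨X, hX, he⟩ := Multiset.countP_pos.1 h4
  exact ⟨X, hX, he⟩

/-- Let `C` be a circuit of a finite loopless multigraph `G` every edge of which lies in a circuit.

(1) Suppose that for every vertex `v` off `C` there are at most sixteen vertices off `C` which have
odd degree in `G` and are joined to `v` by a path without edges of `C`, and that no set of at least
nine vertices off `C` which are joined to `v` by such paths is left by exactly three edges. Then `G`
has a cycle cover of total length `2 |E(G)| - |C|`. If `|C| ≥ 3/5 |E(G)|`, its length is at most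
`7/5 |E(G)|`.

(2) Let `G` be cubic. Suppose that every component of `G - V(C)` has at most sixteen vertices, and
that no set of at least nine vertices of such a component is left by exactly three edges of `G`.
Then `G` has a cycle cover of total length `2 |E(G)| - |C|`. If `C` has at least `9/10 |V(G)|`
vertices, its length is at most `7/5 |E(G)|`. -/
theorem result {V E : Type} [Fintype V] [DecidableEq V] [Fintype E] [DecidableEq E]
    (G : MGraph V E) (hb : ∀ e, ∃ D, IsCircuit G D ∧ e ∈ D) (C : Finset E)
    (hC : IsCircuit G C) :
    ((∀ v, Off G C v →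
        ({w | Off G C w ∧ Odd (dg G univ w) ∧ PathAvoiding G C v w} : Set V).ncard ≤ 16) →
      (∀ (v : V) (X : Finset V), Off G C v → (∀ w ∈ X, Off G C w ∧ PathAvoiding G C v w) →
        9 ≤ X.card → (leaving G X).ncard ≠ 3) →
      ∃ F, IsCycleCover G F ∧ length F + C.card = 2 * Fintype.card E ∧
        (3 * Fintype.card E ≤ 5 * C.card → 5 * length F ≤ 7 * Fintype.card E)) ∧
    (IsCubic G →
      (∀ v, Off G C v → ({w | PathOff G C v w} : Set V).ncard ≤ 16) →
      (∀ (v : V) (X : Finset V), Off G C v → (∀ w ∈ X, PathOff G C v w) →
        9 ≤ X.card → (leaving G X).ncard ≠ 3) →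
      ∃ F, IsCycleCover G F ∧ length F + C.card = 2 * Fintype.card E ∧
        (9 * Fintype.card V ≤ 10 * ({v | ¬ Off G C v} : Set V).ncard →
          5 * length F ≤ 7 * Fintype.card E)) := by
  have hpath : ∀ v w, PathAvoiding G C v w ↔
      Pool.Agent.Helper998.Near.Rch G (univ \ C) v w := by
    have h1 : (fun x y => ∃ e, e ∉ C ∧ G.ends e = s(x, y)) =
        fun x y => ∃ e ∈ univ \ C, G.ends e = s(x, y) := by
      funext x y
      apply propext
      constructor
      · rintro ⟨e, h1, h2⟩; exact ⟨e, mem_sdiff.2 ⟨mem_univ _, h1⟩, h2⟩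
      · rintro ⟨e, h1, h2⟩; exact ⟨e, (mem_sdiff.1 h1).2, h2⟩
    intro v w
    unfold PathAvoiding
    rw [h1]
  constructor
  · intro h16 h3
    obtain ⟨F, h1, h2⟩ := of_five G C (Pool.Agent.V11198.Six.five_general G hb C hC
      (fun v hv => by
        have h := h16 v hv
        simp only [hpath] at h
        exact h)
      (fun v X hv hX h9 => h3 v X hv (fun w hw => ⟨(hX w hw).1, (hpath v w).2 (hX w hw).2⟩) h9))
    exact ⟨F, h1, h2, fun h => by omega⟩
  · intro hG h16 h3
    obtain ⟨F, h1, h2⟩ := of_five G C (Pool.Agent.V11198.Six.five_cubic G hG hb C hC h16 h3)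
    refine ⟨F, h1, h2, fun h => ?_⟩
    have h4 : ∑ v, dg G univ v = 2 * (univ : Finset E).card :=
      Pool.Agent.V11198.Six.sum_dg G univ
    rw [sum_congr rfl fun v _ => hG v, sum_const, card_univ, card_univ, smul_eq_mul] at h4
    have h5 : ({v | ¬ Off G C v} : Set V) =
        ((univ.filter fun v => dg G C v ≠ 0 : Finset V) : Set V) := by
      ext v
      rw [mem_coe, mem_filter]
      unfold Off
      simp
    rw [h5, Set.ncard_coe_finset, ← Pool.Agent.V11198.Six.card_circuit G C hC.2.1] at h
    omega

end Pool.Agent.Results.MP_95e9b3_co.LongCircuit
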